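import Mathlib
import Pool.Agent.Work.MP_db9399_lt.Interface

/-!
# MP_db9399, THEOREM LT, block PREP (helper54)
-/

set_option autoImplicit false

namespace Pool.Agent.Work.MP_db9399_lt.helper54

open Finset Classical
open Pool.Agent.Work.MP_db9399_all (nb)
open Pool.Agent.Work.MP_db9399_nc (nn PEC Mts)
open Pool.Agent.Work.MP_db9399_lt

universe u

theorem mem_cc (C : Fin 3 → Finset ℕ) (b : ℕ) : b ∈ cc C ↔ ∃ i, b ∈ C i := by
  simp only [cc, mem_union]
  constructor
  · rintro ((h | h) | h)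
    exacts [⟨0, h⟩, ⟨1, h⟩, ⟨2, h⟩]
  · rintro ⟨i, h⟩
    fin_cases i
    · exact Or.inl (Or.inl h)
    · exact Or.inl (Or.inr h)
    · exact Or.inr h

theorem card_cc (C : Fin 3 → Finset ℕ) (hC : ∀ i j, i ≠ j → Disjoint (C i) (C j)) :
    (cc C).card = (C 0).card + (C 1).card + (C 2).card := by
  rw [cc, card_union_of_disjoint, card_union_of_disjoint (hC 0 1 (by decide))]
  rw [disjoint_union_left]
  exact ⟨hC 0 2 (by decide), hC 1 2 (by decide)⟩

section
variable {V : Type u} [Fintype V]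

theorem nb_nn (G : SimpleGraph V) (v : V) :
    (nb G v).card + (nn G univ v).card + 1 = Fintype.card V := by
  have h2 : univ.filter (fun w => ¬ G.Adj v w) = insert v (nn G univ v) := by
    ext w
    simp only [mem_filter, mem_univ, true_and, nn, mem_insert]
    constructor
    · intro h
      by_cases hw : w = v
      · exact Or.inl hw
      · exact Or.inr ⟨hw, h⟩
    · rintro (h | h)
      · subst h
        exact G.loopless.irrefl w
      · exact h.2
  have h3 : v ∉ nn G univ v := by
    simp [nn]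
  have h1 := Finset.card_filter_add_card_filter_not (s := (univ : Finset V)) (fun w => G.Adj v w)
  rw [h2, card_insert_of_notMem h3] at h1
  have h4 : (univ : Finset V).card = Fintype.card V := rfl
  have h5 : (nb G v).card = (univ.filter (fun w => G.Adj v w)).card := rfl
  omega

theorem card_pt (p : V → Fin 3) (a : V → Bool) (i : Fin 3) :
    (pt p i).card = (cell p a i true).card + (cell p a i false).card := by
  have h : pt p i = cell p a i true ∪ cell p a i false := by
    ext v
    simp only [pt, cell, mem_filter, mem_univ, true_and, mem_union]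
    cases a v <;> simp
  rw [h, card_union_of_disjoint]
  rw [disjoint_left]
  intro v hv hv2
  simp only [cell, mem_filter, mem_univ, true_and] at hv hv2
  rw [hv.2] at hv2
  exact absurd hv2.2 (by decide)

theorem card_pts (p : V → Fin 3) :
    Fintype.card V = (pt p 0).card + (pt p 1).card + (pt p 2).card := by
  have h := Finset.card_eq_sum_card_fiberwise (f := p) (s := (univ : Finset V))
    (t := (univ : Finset (Fin 3))) (fun _ _ => mem_coe.2 (mem_univ _))
  rw [Fin.sum_univ_three] at h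
  exact h

theorem pt_bounds {G : SimpleGraph V} {d x y h s : ℕ} {F : V → Finset ℕ} {p : V → Fin 3}
    {a : V → Bool} {C : Fin 3 → Finset ℕ} (H : LTH G d x y h s F p a C) (i : Fin 3) :
    (pt p i).card ≤ 2 * s ∧ 2 * s ≤ (pt p i).card + 2 * x := by
  have h1 := card_pt p a i
  have h2 := H.cs i true
  have h3 := H.cs i false
  omega

theorem nums {G : SimpleGraph V} {d x y h s : ℕ} {F : V → Finset ℕ} {p : V → Fin 3}
    {a : V → Bool} {C : Fin 3 → Finset ℕ} (H : LTH G d x y h s F p a C) :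
    Fintype.card V ≤ 6 * s ∧ 6 * s ≤ Fintype.card V + 6 * x ∧ d + 2 ≤ Fintype.card V + x ∧
      Fintype.card V ≤ d + 2 + x ∧ 10 ^ 13 * x ≤ h ∧ 100 * h ≤ s := by
  have h0 := card_pts p
  have p0 := pt_bounds H 0
  have p1 := pt_bounds H 1
  have p2 := pt_bounds H 2
  have hx1 := H.x1
  have hxd := H.xd
  have hhd := H.hd
  have hdh := H.dh
  have hh : 10 ^ 13 * x ≤ h := by omega
  have hc := H.Ccard 0
  have hn : 0 < Fintype.card V := by omega
  obtain ⟨v⟩ := Fintype.card_pos_iff.1 hn
  have h1 := nb_nn G v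
  have h2 := H.deg v
  have h3 := H.inn v
  have h4 := H.Fx v
  refine ⟨by omega, by omega, by omega, by omega, hh, by omega⟩

/-- the graph of the special edges and adjusters -/
def RvG (F : V → Finset ℕ) (p : V → Fin 3) (C : Fin 3 → Finset ℕ) (h : ℕ)
    (su sv e1 e2 : ℕ → V) : SimpleGraph V where
  Adj v w := v ≠ w ∧ (isS F p C su sv v w ∨ isA h e1 e2 v w)
  symm := ⟨fun v w hh => ⟨hh.1.symm, by
    rcases hh.2 with ⟨i, b, hb, hc⟩ | ⟨k, hk, hc⟩
    · exact Or.inl ⟨i, b, hb, hc.symm⟩
    · exact Or.inr ⟨k, hk, hc.symm⟩⟩⟩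
  loopless := ⟨fun v hh => hh.1 rfl⟩

theorem fin3_add {i j : Fin 3} (h : i + 1 = j + 1) : i = j := by
  revert h
  revert i j
  decide

theorem card_RvG {G : SimpleGraph V} {F : V → Finset ℕ} {p : V → Fin 3}
    {C : Fin 3 → Finset ℕ} {h : ℕ} {su sv e1 e2 : ℕ → V}
    (S : SPD G F p C h su sv e1 e2) (v : V) :
    (nb (RvG F p C h su sv e1 e2) v).card ≤ 3 := by
  have hA : (univ.filter (fun w => ∃ i, ∃ b ∈ od F p C i, su b = v ∧ sv b = w)).card ≤ 1 := by
    rw [card_le_one]
    intro w hw w' hw'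
    simp only [mem_filter, mem_univ, true_and] at hw hw'
    obtain ⟨i, b, hb, h1, h2⟩ := hw
    obtain ⟨j, b', hb', h1', h2'⟩ := hw'
    have e : i = j := by
      apply fin3_add
      rw [← S.up i b hb, ← S.up j b' hb', h1, h1']
    subst e
    have e2 : b = b' := S.uinj i (mem_coe.2 hb) (mem_coe.2 hb') (by rw [h1, h1'])
    rw [← h2, ← h2', e2]
  have hB : (univ.filter (fun w => ∃ i, ∃ b ∈ od F p C i, sv b = v ∧ su b = w)).card ≤ 1 := by
    rw [card_le_one]
    intro w hw w' hw'
    simp only [mem_filter, mem_univ, true_and] at hw hw'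
    obtain ⟨i, b, hb, h1, h2⟩ := hw
    obtain ⟨j, b', hb', h1', h2'⟩ := hw'
    have e : i = j := by
      rw [← S.vp i b hb, ← S.vp j b' hb', h1, h1']
    subst e
    have e2 : b = b' := S.vinj i (mem_coe.2 hb) (mem_coe.2 hb') (by rw [h1, h1'])
    rw [← h2, ← h2', e2]
  have hk : ∀ k < 4 * h, p (e2 k) ≠ 0 := by
    intro k hk
    by_cases hk2 : k < 2 * h
    · rw [S.p2 k hk2]; decide
    · rw [S.p3 k (by omega) hk]; decide
  have hD : (univ.filter (fun w => isA h e1 e2 v w)).card ≤ 1 := by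
    rw [card_le_one]
    intro w hw w' hw'
    simp only [mem_filter, mem_univ, true_and] at hw hw'
    obtain ⟨k, hk1, hc⟩ := hw
    obtain ⟨k', hk1', hc'⟩ := hw'
    rcases hc with ⟨h1, h2⟩ | ⟨h1, h2⟩ <;> rcases hc' with ⟨h1', h2'⟩ | ⟨h1', h2'⟩
    · have : k = k' := S.i1 (mem_coe.2 (mem_range.2 hk1)) (mem_coe.2 (mem_range.2 hk1'))
        (by rw [h1, h1'])
      rw [← h2, ← h2', this]
    · exact absurd (by rw [h2', ← h1]; exact S.p1 k hk1) (hk k' hk1')
    · exact absurd (by rw [h2, ← h1']; exact S.p1 k' hk1') (hk k hk1)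
    · have : k = k' := S.i2 (mem_coe.2 (mem_range.2 hk1)) (mem_coe.2 (mem_range.2 hk1'))
        (by rw [h2, h2'])
      rw [← h1, ← h1', this]
  have hsub : nb (RvG F p C h su sv e1 e2) v ⊆
      (univ.filter (fun w => ∃ i, ∃ b ∈ od F p C i, su b = v ∧ sv b = w) ∪
      univ.filter (fun w => ∃ i, ∃ b ∈ od F p C i, sv b = v ∧ su b = w)) ∪
      univ.filter (fun w => isA h e1 e2 v w) := by
    intro w hw
    have hw2 : v ≠ w ∧ (isS F p C su sv v w ∨ isA h e1 e2 v w) := (mem_filter.1 hw).2
    simp only [mem_union, mem_filter, mem_univ, true_and]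
    rcases hw2.2 with ⟨i, b, hb, ⟨h1, h2⟩ | ⟨h1, h2⟩⟩ | hc
    · exact Or.inl (Or.inl ⟨i, b, hb, h1, h2⟩)
    · exact Or.inl (Or.inr ⟨i, b, hb, h2, h1⟩)
    · exact Or.inr hc
  have h1 := card_le_card hsub
  have h2 := card_union_le (univ.filter (fun w => ∃ i, ∃ b ∈ od F p C i, su b = v ∧ sv b = w) ∪
      univ.filter (fun w => ∃ i, ∃ b ∈ od F p C i, sv b = v ∧ su b = w))
      (univ.filter (fun w => isA h e1 e2 v w))
  have h3 := card_union_le (univ.filter (fun w => ∃ i, ∃ b ∈ od F p C i, su b = v ∧ sv b = w))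
      (univ.filter (fun w => ∃ i, ∃ b ∈ od F p C i, sv b = v ∧ su b = w))
  omega

/-- the special colours at `v` -/
noncomputable def spc (F : V → Finset ℕ) (p : V → Fin 3) (C : Fin 3 → Finset ℕ)
    (su : ℕ → V) (v : V) : Finset ℕ :=
  (cc C).filter (fun b => ∃ i, b ∈ od F p C i ∧ su b = v)

theorem card_spc {G : SimpleGraph V} {F : V → Finset ℕ} {p : V → Fin 3}
    {C : Fin 3 → Finset ℕ} {h : ℕ} {su sv e1 e2 : ℕ → V}
    (S : SPD G F p C h su sv e1 e2) (v : V) : (spc F p C su v).card ≤ 1 := by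
  rw [card_le_one]
  intro b hb b' hb'
  simp only [spc, mem_filter] at hb hb'
  obtain ⟨-, i, hb, h1⟩ := hb
  obtain ⟨-, j, hb', h1'⟩ := hb'
  have e : i = j := by
    apply fin3_add
    rw [← S.up i b hb, ← S.up j b' hb', h1, h1']
  subst e
  exact S.uinj i (mem_coe.2 hb) (mem_coe.2 hb') (by rw [h1, h1'])

theorem od_mono {F : V → Finset ℕ} {p : V → Fin 3} {C C' : Fin 3 → Finset ℕ}
    (hC : ∀ i, C' i ⊆ C i) (i : Fin 3) : od F p C' i ⊆ od F p C i :=
  filter_subset_filter _ (hC i)

theorem isS_mono {F : V → Finset ℕ} {p : V → Fin 3} {C C' : Fin 3 → Finset ℕ}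
    {su sv : ℕ → V} (hC : ∀ i, C' i ⊆ C i) {v w : V} (hh : isS F p C' su sv v w) :
    isS F p C su sv v w := by
  obtain ⟨i, b, hb, hc⟩ := hh
  exact ⟨i, b, od_mono hC i hb, hc⟩

theorem SPD_mono {G : SimpleGraph V} {F : V → Finset ℕ} {p : V → Fin 3}
    {C C' : Fin 3 → Finset ℕ} {h : ℕ} {su sv e1 e2 : ℕ → V} (hC : ∀ i, C' i ⊆ C i)
    (S : SPD G F p C h su sv e1 e2) : SPD G F p C' h su sv e1 e2 where
  vp i b hb := S.vp i b (od_mono hC i hb)
  up i b hb := S.up i b (od_mono hC i hb)
  adj i b hb := S.adj i b (od_mono hC i hb)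
  uF i b hb := S.uF i b (od_mono hC i hb)
  vinj i := (S.vinj i).mono (fun b hb => mem_coe.2 (od_mono hC i (mem_coe.1 hb)))
  uinj i := (S.uinj i).mono (fun b hb => mem_coe.2 (od_mono hC i (mem_coe.1 hb)))
  p1 := S.p1
  p2 := S.p2
  p3 := S.p3
  ea := S.ea
  i1 := S.i1
  i2 := S.i2
  es k hk i b hb := S.es k hk i b (od_mono hC i hb)

end

theorem stmt_PREP (hS : Stmt_SPEC.{u}) (hG : Stmt_GALVC.{u}) : Stmt_PREP.{u} := by
  intro V _ G d x y h s F p a C H
  obtain ⟨su, sv, e1, e2, spd⟩ := hS G d x y h s F p a C H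
  obtain ⟨n6a, n6b, dn1, dn2, hh, hs⟩ := nums H
  have hx1 := H.x1
  have hxd := H.xd
  have hyh := H.yh
  have hhd := H.hd
  have hdh := H.dh
  -- palettes
  have hCe : ∀ i, ∃ t ⊆ C i, t.card = s := fun i => Finset.exists_subset_card_eq (by
    have := H.Ccard i; omega)
  choose Ce hCeC hCec using hCe
  set Cn : Fin 3 → Finset ℕ := fun i => C i \ Ce i with hCn
  have hCnC : ∀ i, Cn i ⊆ C i := fun i => sdiff_subset
  have hCu : ∀ i, Ce i ∪ Cn i = C i := fun i => union_sdiff_of_subset (hCeC i)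
  have hcc : (cc C).card + 3 * h = 6 * s := by
    have h1 := card_cc C H.Cdis
    have h2 := H.Ccard 0
    have h3 := H.Ccard 1
    have h4 := H.Ccard 2
    omega
  have hccr : cc C ⊆ range (d + 2) := by
    intro b hb
    obtain ⟨i, hi⟩ := (mem_cc C b).1 hb
    exact mem_range.2 (H.Clt i b hi)
  have hR : (range (d + 2) \ cc C).card + 6 * s = d + 2 + 3 * h := by
    have h1 := card_sdiff_add_card_eq_card hccr
    rw [card_range] at h1
    omega
  obtain ⟨QT, hQT, hQTc⟩ : ∃ t ⊆ range (d + 2) \ cc C, t.card = h :=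
    Finset.exists_subset_card_eq (by omega)
  have hR2 : ((range (d + 2) \ cc C) \ QT).card + h = (range (d + 2) \ cc C).card := by
    have h1 := card_sdiff_add_card_eq_card hQT
    omega
  obtain ⟨QF, hQF, hQFc⟩ : ∃ t ⊆ (range (d + 2) \ cc C) \ QT, t.card = h :=
    Finset.exists_subset_card_eq (by omega)
  have hQd : Disjoint QF QT := by
    rw [disjoint_left]
    intro b hb hb2
    exact (mem_sdiff.1 (hQF hb)).2 hb2
  set Q : Bool → Finset ℕ := fun l => if l then QT else QF with hQ
  have hQc : ∀ l, (Q l).card = h := by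
    intro l
    cases l <;> simp [hQ, hQTc, hQFc]
  have hQR : ∀ l, Q l ⊆ range (d + 2) \ cc C := by
    intro l
    cases l
    · simp only [hQ, Bool.false_eq_true, if_false]
      exact fun b hb => (mem_sdiff.1 (hQF hb)).1
    · simp only [hQ, if_true]
      exact hQT
  have hQC : ∀ l i, ∀ b ∈ Q l, b ∉ C i := by
    intro l i b hb hi
    exact (mem_sdiff.1 (hQR l hb)).2 ((mem_cc C b).2 ⟨i, hi⟩)
  have hcp : CP p a Ce Cn Q s (x + 2) := by
    refine ⟨?_, hCec, ?_, ?_, ?_, ?_, ?_, ?_, ?_⟩
    · intro i l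
      have := H.cs i l
      omega
    · intro i l
      have h1 := card_sdiff_add_card_eq_card (hCeC i)
      have h2 := hCec i
      have h3 := hQc l
      have h4 := H.Ccard i
      show (C i \ Ce i).card + (Q l).card = s
      omega
    · intro i j hij
      exact (H.Cdis i j hij).mono (hCeC i) (hCeC j)
    · intro i j hij
      exact (H.Cdis i j hij).mono (hCnC i) (hCnC j)
    · intro i j
      by_cases hij : i = j
      · subst hij
        exact disjoint_sdiff
      · exact (H.Cdis i j hij).mono (hCeC i) (hCnC j)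
    · intro i l
      rw [disjoint_left]
      intro b hb hb2
      exact hQC l i b hb2 (hCeC i hb)
    · intro i l
      rw [disjoint_left]
      intro b hb hb2
      exact hQC l i b hb2 (hCnC i hb)
    · simpa [hQ] using hQd
  -- Galvin
  set Rv := RvG F p C h su sv e1 e2 with hRv
  set F' : V → Finset ℕ := fun v => F v ∪ spc F p C su v with hF'
  have hF'c : ∀ v, (F' v).card ≤ x + 2 := by
    intro v
    have h1 := card_union_le (F v) (spc F p C su v)
    have h2 := H.Fx v
    have h3 := card_spc spd v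
    show (F v ∪ spc F p C su v).card ≤ x + 2
    omega
  obtain ⟨N, mts, g1, g2, g3, g4, g5⟩ := hG G Rv F' p a Ce Cn Q s (x + 2) hcp (by omega)
    (by omega) hF'c (fun v => le_trans (H.inn v) (by omega)) (fun v => card_RvG spd v)
  set E := ec Ce Cn Q with hE
  have hmE : ∀ b, b ∈ E ↔ (∃ i, b ∈ C i) ∨ ∃ l, b ∈ Q l := by
    intro b
    simp only [hE, ec, mem_union, mem_cc]
    constructor
    · rintro (((⟨i, hi⟩ | ⟨i, hi⟩) | hb) | hb)
      · exact Or.inl ⟨i, hCeC i hi⟩
      · exact Or.inl ⟨i, hCnC i hi⟩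
      · exact Or.inr ⟨false, hb⟩
      · exact Or.inr ⟨true, hb⟩
    · rintro (⟨i, hi⟩ | ⟨l, hl⟩)
      · rw [← hCu i, mem_union] at hi
        rcases hi with hi | hi
        · exact Or.inl (Or.inl (Or.inl ⟨i, hi⟩))
        · exact Or.inl (Or.inl (Or.inr ⟨i, hi⟩))
      · cases l
        · exact Or.inl (Or.inr hl)
        · exact Or.inr hl
  have hEu : E = cc C ∪ (QT ∪ QF) := by
    ext b
    rw [hmE, mem_union, mem_union, mem_cc]
    constructor
    · rintro (hb | ⟨l, hl⟩)
      · exact Or.inl hb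
      · cases l
        · exact Or.inr (Or.inr (by simpa [hQ] using hl))
        · exact Or.inr (Or.inl (by simpa [hQ] using hl))
    · rintro (hb | hb | hb)
      · exact Or.inl hb
      · exact Or.inr ⟨true, by simpa [hQ] using hb⟩
      · exact Or.inr ⟨false, by simpa [hQ] using hb⟩
  have hEr : E ⊆ range (d + 2) := by
    intro b hb
    rcases (hmE b).1 hb with ⟨i, hi⟩ | ⟨l, hl⟩
    · exact mem_range.2 (H.Clt i b hi)
    · exact (mem_sdiff.1 (hQR l hl)).1
  have hEc : E.card + h = 6 * s := by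
    have h1 : Disjoint (cc C) (QT ∪ QF) := by
      rw [disjoint_left]
      intro b hb hb2
      rcases mem_union.1 hb2 with hb2 | hb2
      · exact (mem_sdiff.1 (hQT hb2)).2 hb
      · exact (mem_sdiff.1 (mem_sdiff.1 (hQF hb2)).1).2 hb
    rw [hEu, card_union_of_disjoint h1, card_union_of_disjoint hQd.symm]
    omega
  -- bad colours
  set un : ℕ → Finset V := fun b => univ.filter (fun v => b ∉ C (p v) ∧ b ∉ F v ∧ N b v = v)
    with hun
  set bad : Finset ℕ := E.filter (fun b => d < 1000 * (un b).card) with hbad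
  have hvn : ∀ v, (E.filter (fun b => b ∉ C (p v) ∧ b ∉ F v ∧ N b v = v)).card ≤ 52 * x := by
    intro v
    have h1 : E.filter (fun b => b ∉ C (p v) ∧ b ∉ F v ∧ N b v = v) ⊆
        E.filter (fun b => b ∉ Ce (p v) ∪ Cn (p v) ∧ b ∉ F' v ∧ N b v = v) ∪
        spc F p C su v := by
      intro b hb
      simp only [mem_filter] at hb
      rw [mem_union]
      by_cases hsp : b ∈ spc F p C su v
      · exact Or.inr hsp
      · refine Or.inl (mem_filter.2 ⟨hb.1, ?_, ?_, hb.2.2.2⟩)
        · rw [hCu]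
          exact hb.2.1
        · intro hc
          rcases mem_union.1 hc with hc | hc
          · exact hb.2.2.1 hc
          · exact hsp hc
    have h2 := card_le_card h1
    have h3 := card_union_le (E.filter (fun b => b ∉ Ce (p v) ∪ Cn (p v) ∧ b ∉ F' v ∧ N b v = v))
      (spc F p C su v)
    have h4 := g4 v
    have h5 := card_spc spd v
    omega
  have hsum : ∑ b ∈ E, (un b).card ≤ Fintype.card V * (52 * x) := by
    have h1 : ∑ b ∈ E, (un b).card =
        ∑ v : V, (E.filter (fun b => b ∉ C (p v) ∧ b ∉ F v ∧ N b v = v)).card := by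
      simp only [hun, card_filter]
      exact sum_comm
    rw [h1]
    have h2 := sum_le_card_nsmul (univ : Finset V)
      (fun v => (E.filter (fun b => b ∉ C (p v) ∧ b ∉ F v ∧ N b v = v)).card) (52 * x)
      (fun v _ => hvn v)
    simpa [smul_eq_mul] using h2
  have hbc : bad.card ≤ 10 ^ 5 * x := by
    have h1 : bad.card * d ≤ 1000 * ∑ b ∈ E, (un b).card := by
      have h2 : bad.card * d ≤ ∑ b ∈ bad, 1000 * (un b).card := by
        have h3 := card_nsmul_le_sum bad (fun b => 1000 * (un b).card) d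
          (fun b hb => ((mem_filter.1 hb).2).le)
        simpa [smul_eq_mul] using h3
      have h4 : ∑ b ∈ bad, 1000 * (un b).card ≤ ∑ b ∈ E, 1000 * (un b).card :=
        sum_le_sum_of_subset (filter_subset _ _)
      have h5 : ∑ b ∈ E, 1000 * (un b).card = 1000 * ∑ b ∈ E, (un b).card := (mul_sum _ _ _).symm
      rw [h5] at h4
      exact le_trans h2 h4
    by_contra hcon
    push Not at hcon
    have h5 : bad.card * d ≤ 1000 * (Fintype.card V * (52 * x)) :=
      le_trans h1 (Nat.mul_le_mul_left _ hsum)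
    have h6 : Fintype.card V * 2 ≤ 3 * d := by omega
    have h7 : 10 ^ 5 * x * d < bad.card * d := by
      apply Nat.mul_lt_mul_of_pos_right hcon
      omega
    have h8 : 1000 * (Fintype.card V * (52 * x)) * 2 ≤ 1000 * 52 * x * (3 * d) := by
      calc 1000 * (Fintype.card V * (52 * x)) * 2 = 1000 * 52 * x * (Fintype.card V * 2) := by ring
        _ ≤ 1000 * 52 * x * (3 * d) := Nat.mul_le_mul_left _ h6
    have h9 : 1000 * 52 * x * (3 * d) = 156000 * (x * d) := by ring
    have h10 : 10 ^ 5 * x * d = 100000 * (x * d) := by ring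
    omega
  have hbE : bad ⊆ E := filter_subset _ _
  set C' : Fin 3 → Finset ℕ := fun i => C i \ bad with hC'
  set Q1 : Finset ℕ := (QT ∪ QF) \ bad with hQ1
  have hC'C : ∀ i, C' i ⊆ C i := fun i => sdiff_subset
  have hE1 : cc C' ∪ Q1 = E \ bad := by
    ext b
    rw [hEu]
    simp only [hQ1, mem_union, mem_sdiff, mem_cc, hC']
    constructor
    · rintro (⟨i, h1, h2⟩ | ⟨h1, h2⟩)
      · exact ⟨Or.inl ⟨i, h1⟩, h2⟩
      · exact ⟨Or.inr h1, h2⟩
    · rintro ⟨⟨i, hi⟩ | h1, h2⟩
      · exact Or.inl ⟨i, hi, h2⟩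
      · exact Or.inr ⟨h1, h2⟩
  have hEE : ∀ b ∈ cc C' ∪ Q1, b ∈ E ∧ b ∉ bad := by
    intro b hb
    rw [hE1, mem_sdiff] at hb
    exact hb
  have hE1r : cc C' ∪ Q1 ⊆ range (d + 2) := fun b hb => hEr (hEE b hb).1
  have hE1c : (cc C' ∪ Q1).card + bad.card + h = 6 * s := by
    rw [hE1]
    have := card_sdiff_add_card_eq_card hbE
    omega
  have hCb : ∀ b ∈ cc C' ∪ Q1, ∀ i, b ∉ C' i → b ∉ C i := by
    intro b hb i hi hi2
    exact hi (mem_sdiff.2 ⟨hi2, (hEE b hb).2⟩)
  have hQ2c : (range (d + 2) \ (cc C' ∪ Q1)).card + 6 * s = d + 2 + bad.card + h := by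
    have h1 := card_sdiff_add_card_eq_card hE1r
    rw [card_range] at h1
    omega
  have hunb : ∀ b ∈ cc C' ∪ Q1, 1000 * (un b).card ≤ d := by
    intro b hb
    by_contra hcon
    push Not at hcon
    exact (hEE b hb).2 (mem_filter.2 ⟨(hEE b hb).1, hcon⟩)
  refine ⟨C', Q1, range (d + 2) \ (cc C' ∪ Q1), su, sv, e1, e2, N, ?_⟩
  refine { dC := ?_, dC1 := ?_, dC2 := ?_, d12 := ?_, tot := ?_, CF := ?_, cl := ?_, cb := ?_,
           q1 := ?_, q2 := ?_, q3 := ?_, spd := SPD_mono hC'C spd, mts := ?_, NF := ?_,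
           NC := ?_, NS := ?_, Nu := ?_, cand := ?_, unb := ?_, unv := ?_, lam := ?_ }
  · intro i j hij
    exact (H.Cdis i j hij).mono (hC'C i) (hC'C j)
  · intro i
    rw [disjoint_left]
    intro b hb hb2
    have h1 := hC'C i hb
    rcases mem_union.1 (mem_sdiff.1 hb2).1 with h2 | h2
    · exact hQC true i b (by simpa [hQ] using h2) h1
    · exact hQC false i b (by simpa [hQ] using h2) h1
  · intro i
    rw [disjoint_left]
    intro b hb hb2
    exact (mem_sdiff.1 hb2).2 (mem_union_left _ ((mem_cc C' b).2 ⟨i, hb⟩))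
  · rw [disjoint_left]
    intro b hb hb2
    exact (mem_sdiff.1 hb2).2 (mem_union_right _ hb)
  · exact union_sdiff_of_subset hE1r
  · intro v
    exact (H.CF v).mono_right (hC'C _)
  · intro i
    have h1 := card_le_card (hC'C i)
    have h2 := H.Ccard i
    omega
  · intro i
    have h2 := H.Ccard i
    have h3 : (C i).card ≤ (C' i).card + bad.card := by
      have h4 : C i ⊆ C' i ∪ bad := by
        intro b hb
        by_cases hb2 : b ∈ bad
        · exact mem_union_right _ hb2
        · exact mem_union_left _ (mem_sdiff.2 ⟨hb, hb2⟩)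
      exact le_trans (card_le_card h4) (card_union_le _ _)
    omega
  · have h1 : Q1.card ≤ (QT ∪ QF).card := card_le_card sdiff_subset
    have h2 := card_union_le QT QF
    omega
  · omega
  · omega
  · refine ⟨fun b hb => mts.inv b (hEE b hb).1, fun b hb => mts.adj b (hEE b hb).1, ?_⟩
    intro b hb b' hb'
    exact mts.dis b (hEE b hb).1 b' (hEE b' hb').1
  · intro b hb v hv
    have h1 := g1 b (hEE b hb).1 v hv
    exact ⟨fun hc => h1.1 (mem_union_left _ hc), h1.2.2⟩
  · intro i b hb v hv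
    exact g2 i b (by rw [hCu]; exact hC'C i hb) v hv
  · intro b hb v hv
    have h1 := (g1 b (hEE b hb).1 v hv).2.1
    constructor
    · intro hc
      exact h1 ⟨fun e => hv e.symm, Or.inl (isS_mono hC'C hc)⟩
    · intro hc
      exact h1 ⟨fun e => hv e.symm, Or.inr hc⟩
  · intro i b hb
    by_contra hv
    have hb2 := od_mono (F := F) (p := p) hC'C i hb
    have hbi : b ∈ C i := (mem_filter.1 hb2).1
    have h1 := (g1 b ((hmE b).2 (Or.inl ⟨i, hbi⟩)) (su b) hv).1
    exact h1 (mem_union_right _ (mem_filter.2 ⟨(mem_cc C b).2 ⟨i, hbi⟩, i, hb2, rfl⟩))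
  · intro b hb i j hij hbi hbj
    have hbi2 := hCb b hb i hbi
    have hbj2 := hCb b hb j hbj
    have hub := hunb b hb
    have hld := H.load b
    rcases (hmE b).1 (hEE b hb).1 with ⟨k, hk⟩ | ⟨l, hl⟩
    · have h1 : pt p i ⊆ (univ.filter (fun v => p v = i ∧ N b v ≠ v ∧ p (N b v) = j) ∪ un b) ∪
          us F b := by
        intro v hv
        have hv1 : p v = i := (mem_filter.1 hv).2
        by_cases hF : b ∈ F v
        · exact mem_union_right _ (mem_filter.2 ⟨mem_univ _, hF⟩)
        · refine mem_union_left _ ?_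
          by_cases hN : N b v = v
          · refine mem_union_right _ (mem_filter.2 ⟨mem_univ _, ?_, hF, hN⟩)
            rw [hv1]
            exact hbi2
          · refine mem_union_left _ (mem_filter.2 ⟨mem_univ _, hv1, hN, ?_⟩)
            have h2 := (g1 b (hEE b hb).1 v hN).2.2
            have h3 : p (N b v) ≠ k := by
              intro hc
              have h4 := g2 k b (by rw [hCu]; exact hk) (N b v) hc
              rw [mts.inv b (hEE b hb).1 v] at h4
              exact hN h4.symm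
            have h5 : k ≠ i := fun e => hbi2 (e ▸ hk)
            have h6 : k ≠ j := fun e => hbj2 (e ▸ hk)
            rw [hv1] at h2
            revert h2 h3 h5 h6 hij
            generalize p (N b v) = m
            revert m
            clear * -
            revert i j k
            decide
      have h2 := card_le_card h1
      have h3 := card_union_le (univ.filter (fun v => p v = i ∧ N b v ≠ v ∧ p (N b v) = j) ∪
        un b) (us F b)
      have h4 := card_union_le (univ.filter (fun v => p v = i ∧ N b v ≠ v ∧ p (N b v) = j))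
        (un b)
      have h5 := pt_bounds H i
      omega
    · have h1 := g3 l b hl i j hij
      have h2 : univ.filter (fun v => N b v = v) ⊆ un b ∪ us F b := by
        intro v hv
        have hv1 : N b v = v := (mem_filter.1 hv).2
        by_cases hF : b ∈ F v
        · exact mem_union_right _ (mem_filter.2 ⟨mem_univ _, hF⟩)
        · exact mem_union_left _ (mem_filter.2 ⟨mem_univ _, hQC l _ b hl, hF, hv1⟩)
      have h3 := card_le_card h2
      have h4 := card_union_le (un b) (us F b)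
      omega
  · intro b hb
    have h1 : univ.filter (fun v => b ∉ C' (p v) ∧ b ∉ F v ∧ N b v = v) ⊆ un b := by
      intro v hv
      have hv1 := (mem_filter.1 hv).2
      exact mem_filter.2 ⟨mem_univ _, hCb b hb _ hv1.1, hv1.2⟩
    exact le_trans (Nat.mul_le_mul_left _ (card_le_card h1)) (hunb b hb)
  · intro v
    have h1 : (cc C' ∪ Q1).filter (fun b => b ∉ C' (p v) ∧ b ∉ F v ∧ N b v = v) ⊆
        E.filter (fun b => b ∉ C (p v) ∧ b ∉ F v ∧ N b v = v) := by
      intro b hb
      have hb1 := mem_filter.1 hb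
      exact mem_filter.2 ⟨(hEE b hb1.1).1, hCb b hb1.1 _ hb1.2.1, hb1.2.2⟩
    have h2 := card_le_card h1
    have h3 := hvn v
    omega
  · intro v
    have h1 : univ.filter (fun w => G.Adj v w ∧ p w ≠ p v ∧ ¬ isS F p C' su sv v w ∧
        ¬ isA h e1 e2 v w ∧ ∀ b ∈ cc C' ∪ Q1, N b v ≠ w) ⊆
        (univ.filter (fun w => G.Adj v w ∧ p w ≠ p v ∧ ¬ Rv.Adj v w ∧ ∀ b ∈ E, N b v ≠ w) ∪
        nb Rv v) ∪ bad.image (fun b => N b v) := by
      intro w hw
      have hw1 := (mem_filter.1 hw).2
      by_cases hr : Rv.Adj v w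
      · exact mem_union_left _ (mem_union_right _ (mem_filter.2 ⟨mem_univ _, hr⟩))
      · by_cases hbw : ∃ b ∈ bad, N b v = w
        · obtain ⟨b, hb, hb2⟩ := hbw
          exact mem_union_right _ (mem_image.2 ⟨b, hb, hb2⟩)
        · refine mem_union_left _ (mem_union_left _ (mem_filter.2 ⟨mem_univ _, hw1.1, hw1.2.1,
            hr, ?_⟩))
          intro b hb hc
          by_cases hb2 : b ∈ bad
          · exact hbw ⟨b, hb2, hc⟩
          · exact hw1.2.2.2.2 b (by rw [hE1]; exact mem_sdiff.2 ⟨hb, hb2⟩) hc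
    have h2 := card_le_card h1
    have h3 := card_union_le (univ.filter (fun w => G.Adj v w ∧ p w ≠ p v ∧ ¬ Rv.Adj v w ∧
      ∀ b ∈ E, N b v ≠ w) ∪ nb Rv v) (bad.image (fun b => N b v))
    have h4 := card_union_le (univ.filter (fun w => G.Adj v w ∧ p w ≠ p v ∧ ¬ Rv.Adj v w ∧
      ∀ b ∈ E, N b v ≠ w)) (nb Rv v)
    have h5 : (bad.image (fun b => N b v)).card ≤ bad.card := card_image_le
    have h6 := g5 v
    have h7 : (nb Rv v).card ≤ 3 := card_RvG spd v
    refine le_trans h2 (le_trans h3 ?_)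
    omega

end Pool.Agent.Work.MP_db9399_lt.helper54
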